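import Pool.Agent.FHQ.StmtsG

/-! Squad FHQ, row AVG: averaging over the residues of a ball. -/

open scoped BigOperators

noncomputable section

namespace Pool.Agent.FHQ.H52

theorem avg (hrsc : RscStmt) : AvgStmt := by
  classical
  intro p _ K _ A M b Q c h S hS
  obtain ⟨ρ, hρ1, hρ2⟩ := hrsc p K A.toAcF0 c h
  choose y hyB hyr using hρ1
  by_contra hcon
  push Not at hcon
  have hmem : ∀ k ∈ S, ∀ r : ZMod p, r - ρ (Q k).c ∈ (Q k).rs h → y r ∈ (Q k).set A := by
    intro k hk r hr
    obtain ⟨hr0, hrX⟩ := hr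
    have h1 := (hρ2 (y r) (hyB r) (Q k).c (hS k hk).1).2 (by
      rw [hyr]
      exact sub_ne_zero.1 hr0)
    refine Or.inr ⟨h1.1, ?_⟩
    rw [h1.2.1, h1.2.2, hyr]
    exact hrX
  have hcard : ∀ k, ((Q k).rs h).ncard =
      (Finset.univ.filter fun r : ZMod p => r - ρ (Q k).c ∈ (Q k).rs h).card := by
    intro k
    rw [← Set.ncard_coe_finset]
    apply Set.ncard_congr (fun r _ => r + ρ (Q k).c)
    · intro r hr
      simpa using hr
    · intro r r' _ _ hrr
      exact add_right_cancel hrr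
    · intro r hr
      refine ⟨r - ρ (Q k).c, ?_, by ring⟩
      simpa using hr
  have hn : ∀ r, {k : Fin b | k ∈ S ∧ y r ∈ (Q k).set A}.ncard =
      (S.filter fun k => y r ∈ (Q k).set A).card := by
    intro r
    rw [← Set.ncard_coe_finset]
    congr 1
    ext k
    simp
  have h1 : p * S.card ≤ M * ∑ k ∈ S, ((Q k).rs h).ncard := by
    rw [Finset.mul_sum, mul_comm p, ← smul_eq_mul, ← Finset.sum_const]
    exact Finset.sum_le_sum fun k hk => (hS k hk).2
  have h2 : ∑ k ∈ S, ((Q k).rs h).ncard ≤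
      ∑ r : ZMod p, (S.filter fun k => y r ∈ (Q k).set A).card := by
    have e1 : ∀ k ∈ S, ((Q k).rs h).ncard =
        ∑ r : ZMod p, if r - ρ (Q k).c ∈ (Q k).rs h then 1 else 0 := by
      intro k _
      rw [hcard, Finset.card_filter]
    have e2 : ∀ r : ZMod p, (S.filter fun k => y r ∈ (Q k).set A).card =
        ∑ k ∈ S, if y r ∈ (Q k).set A then 1 else 0 := by
      intro r
      rw [Finset.card_filter]
    rw [Finset.sum_congr rfl e1, Finset.sum_congr rfl fun r _ => e2 r, Finset.sum_comm]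
    refine Finset.sum_le_sum fun r _ => Finset.sum_le_sum fun k hk => ?_
    by_cases hr : r - ρ (Q k).c ∈ (Q k).rs h
    · rw [if_pos hr, if_pos (hmem k hk r hr)]
    · rw [if_neg hr]
      exact Nat.zero_le _
  have h3 : ∑ r : ZMod p, M * (S.filter fun k => y r ∈ (Q k).set A).card <
      ∑ _r : ZMod p, S.card := by
    apply Finset.sum_lt_sum_of_nonempty Finset.univ_nonempty
    intro r _
    rw [← hn r]
    exact hcon (y r)
  rw [← Finset.mul_sum, Finset.sum_const, Finset.card_univ, ZMod.card, smul_eq_mul] at h3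
  have h4 := Nat.mul_le_mul_left M h2
  omega

end Pool.Agent.FHQ.H52
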