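import Pool.Agent.FHQ.StmtsG

/-! Squad FHQ, row BLC: two tame pieces with a common point. -/

open scoped BigOperators

noncomputable section

namespace Pool.Agent.FHQ.H52

section

variable {p : ℕ} [Fact p.Prime] {K : Type} [Field K]

/-- `rv (y - z)` for a point `y` which is closer to `w` than `z` -/
theorem rv_of_lt (hres : ResStmt) (A : AcF p K) {s t : K} (hs : s ≠ 0) (ht : t ≠ 0)
    (h : A.v s < A.v t) : s - t ≠ 0 ∧ A.v (s - t) = A.v s ∧ A.ac (s - t) = A.ac s := by
  obtain ⟨_, _, h3, _⟩ := hres p K A.toAcF0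
  have h4 := A.add_lt s (-t) hs (neg_ne_zero.2 ht) (by rw [(h3 t).2]; exact h)
  rw [← sub_eq_add_neg] at h4
  refine ⟨?_, h4⟩
  intro h0
  have h5 := h4.2
  rw [h0, (A.ac_zero 0).2 rfl] at h5
  exact hs ((A.ac_zero s).1 h5.symm)

theorem mem_of_near (hres : ResStmt) (A : AcF p K) {P : Pc p K} {x z : K} (hx : x ∈ P.set A)
    (hxc : x ≠ P.c) (hz : x ≠ z) (h : A.v (x - P.c) < A.v (x - z)) : z ∈ P.set A := by
  have h1 := rv_of_lt hres A (sub_ne_zero.2 hxc) (sub_ne_zero.2 hz) h
  have h2 : x - P.c - (x - z) = z - P.c := by ring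
  rw [h2] at h1
  rcases hx with hx | hx
  · exact absurd hx.1 hxc
  · refine Or.inr ⟨sub_ne_zero.1 h1.1, ?_⟩
    rw [h1.2.1, h1.2.2]
    exact hx.2

/-- the case of equal heights, `q ≤ q'` -/
theorem blc_aux (hpwr : PwrStmt) (hrgs : RgsStmt) (hbal : BalStmt) (hres : ResStmt) (A : AcF p K)
    {N m : ℕ} {P Q : Pc p K} {x : K} (hm : 0 < m) (_hP : Tame N m P) (hQ : Tame N m Q)
    (hxP : x ∈ P.set A) (_hxQ : x ∈ Q.set A) (hxPc : x ≠ P.c) (hxQc : x ≠ Q.c)
    (hv : A.v (x - P.c) = A.v (x - Q.c)) (hXQ : Q.X (A.ac (x - Q.c)) (A.v (x - Q.c)))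
    {q q' : ℕ} (hqq : q ≤ q')
    (hq : A.v (x - P.c) - (q + 1) * m ∈ P.exc m)
    (hq' : ∀ s : ℕ, 1 ≤ s → s ≤ q' → ∀ u : ZMod p, u ≠ 0 →
      Q.X (A.ac (x - Q.c) * u ^ m) (A.v (x - Q.c) - s * m)) :
    OneS A N m (N + 2 * m) P Q ∨ OneS A N m (N + 2 * m) Q P := by
  have hac : A.ac (x - Q.c) ≠ 0 := fun h => sub_ne_zero.2 hxQc ((A.ac_zero _).1 h)
  have hacP : A.ac (x - P.c) ≠ 0 := fun h => sub_ne_zero.2 hxPc ((A.ac_zero _).1 h)
  obtain ⟨hb1, hb2, _⟩ := hbal p K A.toAcF0
  obtain ⟨_, _, hr3, _⟩ := hres p K A.toAcF0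
  -- the centre of `Q` is in the ball
  have hball : Q.c ∈ A.ball P.c (A.v (x - P.c) - (q + 1) * m + m) := by
    by_cases he : Q.c = P.c
    · exact Or.inl he
    · right
      have h1 : (x - P.c) + -(x - Q.c) = Q.c - P.c := by ring
      have h2 := hb2 (x - P.c) (-(x - Q.c)) (sub_ne_zero.2 hxPc)
        (neg_ne_zero.2 (sub_ne_zero.2 hxQc)) (by rw [h1]; exact sub_ne_zero.2 he)
      rw [h1, (hr3 _).2, ← hv, min_self] at h2
      refine le_trans ?_ h2
      have h3 : (0 : ℤ) ≤ (q : ℤ) * m := by positivity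
      linarith
  rcases Nat.eq_zero_or_pos q with h0 | hpos
  · subst h0
    have he : A.v (x - P.c) - ((0 : ℕ) + 1) * m + m = A.v (x - Q.c) := by
      rw [hv]; push_cast; ring
    by_cases hbig : p ≤ (N + 2 * m) * (Q.rs (A.v (x - Q.c))).ncard
    · left
      right; left
      refine ⟨_, hq, hball, ?_⟩
      rw [he]
      exact hbig
    · right
      right; right
      have hsm : (Q.rs (A.v (x - Q.c))).ncard ≤ N := by
        rcases hQ.dich (A.v (x - Q.c)) with h | h
        · exact h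
        · exfalso
          apply hbig
          refine h.trans (Nat.mul_le_mul_right _ ?_)
          omega
      refine ⟨A.v (x - Q.c), ?_, hsm, A.ac (x - Q.c), ⟨hac, hXQ⟩, ?_⟩
      · by_contra hexc
        apply hbig
        have h1 := hpwr p m (A.ac (x - Q.c)) (Q.rs (A.v (x - Q.c))) hm hac (by
          intro u hu
          exact ⟨mul_ne_zero hac (pow_ne_zero _ hu),
            hrgs p K m Q _ hexc _ u hac hu hXQ⟩)
        refine h1.trans (Nat.mul_le_mul_right _ ?_)
        omega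
      · intro y hy hy1 hy2
        have hE : A.E (y - Q.c) (x - Q.c) :=
          ⟨sub_ne_zero.2 hy, sub_ne_zero.2 hxQc, hy1, hy2⟩
        rcases ((hb1 _ _).1 hE).2.2 with h | h
        · have : y = x := sub_left_injective h
          rw [this]; exact hxP
        · have h2 : y - Q.c - (x - Q.c) = y - x := by ring
          rw [h2, hy2, ← hv] at h
          by_cases hyx : x = y
          · rw [← hyx]; exact hxP
          · apply mem_of_near hres A hxP hxPc hyx
            have h3 : x - y = -(y - x) := by ring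
            rw [h3, (hr3 _).2]
            exact h
  · left
    right; left
    refine ⟨_, hq, hball, ?_⟩
    have he : A.v (x - P.c) - ((q : ℤ) + 1) * m + m = A.v (x - Q.c) - (q : ℤ) * m := by
      rw [hv]; ring
    rw [he]
    have h1 := hpwr p m (A.ac (x - Q.c)) (Q.rs (A.v (x - Q.c) - (q : ℤ) * m)) hm hac (by
      intro u hu
      exact ⟨mul_ne_zero hac (pow_ne_zero _ hu), hq' q hpos hqq u hu⟩)
    refine h1.trans (Nat.mul_le_mul_right _ ?_)
    omega

end

theorem blc (hpwr : PwrStmt) (hrgs : RgsStmt) (hdsn : DsnStmt) (hbal : BalStmt)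
    (hres : ResStmt) : BlcStmt := by
  intro p _ K _ A N m P Q x hm hP hQ hxP hxQ
  by_cases hxPc : x = P.c
  · left; left; rw [← hxPc]; exact hxQ
  by_cases hxQc : x = Q.c
  · right; left; left; rw [← hxQc]; exact hxP
  rcases lt_trichotomy (A.v (x - P.c)) (A.v (x - Q.c)) with hv | hv | hv
  · right; left; left
    exact mem_of_near hres A hxP hxPc hxQc hv
  · have hXP : P.X (A.ac (x - P.c)) (A.v (x - P.c)) := by
      rcases hxP with h | h
      · exact absurd h.1 hxPc
      · exact h.2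
    have hXQ : Q.X (A.ac (x - Q.c)) (A.v (x - Q.c)) := by
      rcases hxQ with h | h
      · exact absurd h.1 hxQc
      · exact h.2
    have hacQ : A.ac (x - Q.c) ≠ 0 := fun h => sub_ne_zero.2 hxQc ((A.ac_zero _).1 h)
    have hacP : A.ac (x - P.c) ≠ 0 := fun h => sub_ne_zero.2 hxPc ((A.ac_zero _).1 h)
    rcases hdsn p K m P _ _ hacP hXP with hlow | ⟨q, hq1, hq2⟩
    · right; right; left
      exact ⟨_, _, hacP, hlow⟩
    rcases hdsn p K m Q _ _ hacQ hXQ with hlow | ⟨q', hq1', hq2'⟩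
    · right; right; right
      exact ⟨_, _, hacQ, hlow⟩
    rcases le_total q q' with hle | hle
    · rcases blc_aux hpwr hrgs hbal hres A hm hP hQ hxP hxQ hxPc hxQc hv hXQ hle hq1 hq2' with h | h
      · exact Or.inl h
      · exact Or.inr (Or.inl h)
    · rcases blc_aux hpwr hrgs hbal hres A hm hQ hP hxQ hxP hxQc hxPc hv.symm hXP hle hq1' hq2
        with h | h
      · exact Or.inr (Or.inl h)
      · exact Or.inl h
  · left; left
    exact mem_of_near hres A hxQ hxQc hxPc hv

end Pool.Agent.FHQ.H52
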