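import Pool.Agent.FHQ.StmtsU

/-! Squad FHQ, row EXT: extension of homomorphisms to the compositum. -/

open scoped BigOperators

noncomputable section

namespace Pool.Agent.FHQ.H52

section

variable {L : Type} [Field L] {K H : Subfield L} (θ : K →+* L) (ψ : H →+* L)

/-- `y` is a value of the extension at `a` -/
def Rep (a y : L) : Prop :=
  ∃ (ι : Type) (_ : Fintype ι) (c : ι → K) (b : ι → H),
    a = ∑ i, (c i : L) * (b i : L) ∧ y = ∑ i, θ (c i) * ψ (b i)

variable {θ ψ}

theorem rep_add {a y a' y' : L} (h : Rep θ ψ a y) (h' : Rep θ ψ a' y') :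
    Rep θ ψ (a + a') (y + y') := by
  obtain ⟨ι, _, c, b, h1, h2⟩ := h
  obtain ⟨ι', _, c', b', h1', h2'⟩ := h'
  refine ⟨ι ⊕ ι', inferInstance, Sum.elim c c', Sum.elim b b', ?_, ?_⟩
  · rw [Fintype.sum_sum_type, h1, h1']
    rfl
  · rw [Fintype.sum_sum_type, h2, h2']
    rfl

theorem rep_mul {a y a' y' : L} (h : Rep θ ψ a y) (h' : Rep θ ψ a' y') :
    Rep θ ψ (a * a') (y * y') := by
  obtain ⟨ι, _, c, b, h1, h2⟩ := h
  obtain ⟨ι', _, c', b', h1', h2'⟩ := h'
  refine ⟨ι × ι', inferInstance, fun i => c i.1 * c' i.2, fun i => b i.1 * b' i.2, ?_, ?_⟩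
  · rw [Fintype.sum_prod_type, h1, h1', Finset.sum_mul_sum]
    refine Finset.sum_congr rfl fun i _ => Finset.sum_congr rfl fun j _ => ?_
    push_cast
    ring
  · rw [Fintype.sum_prod_type, h2, h2', Finset.sum_mul_sum]
    refine Finset.sum_congr rfl fun i _ => Finset.sum_congr rfl fun j _ => ?_
    rw [map_mul, map_mul]
    ring

theorem rep_neg {a y : L} (h : Rep θ ψ a y) : Rep θ ψ (-a) (-y) := by
  obtain ⟨ι, _, c, b, h1, h2⟩ := h
  refine ⟨ι, inferInstance, fun i => -c i, b, ?_, ?_⟩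
  · rw [h1, ← Finset.sum_neg_distrib]
    refine Finset.sum_congr rfl fun i _ => ?_
    push_cast
    ring
  · rw [h2, ← Finset.sum_neg_distrib]
    refine Finset.sum_congr rfl fun i _ => ?_
    rw [map_neg]
    ring

theorem rep_K (a : K) : Rep θ ψ (a : L) (θ a) :=
  ⟨Unit, inferInstance, fun _ => a, fun _ => 1, by simp, by simp⟩

theorem rep_H (b : H) : Rep θ ψ (b : L) (ψ b) :=
  ⟨Unit, inferInstance, fun _ => 1, fun _ => b, by simp, by simp⟩

theorem rep_f {f : L →+* L} (hθ : ∀ a : K, ∃ h : f a ∈ K, θ ⟨f a, h⟩ = f (θ a))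
    (hH : H ≤ fixs f) (hψ : ∀ b : H, f (ψ b) = ψ b) {a y : L} (h : Rep θ ψ a y) :
    Rep θ ψ (f a) (f y) := by
  obtain ⟨ι, _, c, b, h1, h2⟩ := h
  choose g hg using hθ
  refine ⟨ι, inferInstance, fun i => ⟨f (c i), g (c i)⟩, b, ?_, ?_⟩
  · rw [h1, map_sum]
    refine Finset.sum_congr rfl fun i _ => ?_
    rw [map_mul]
    congr 1
    exact hH (b i).2
  · rw [h2, map_sum]
    refine Finset.sum_congr rfl fun i _ => ?_
    rw [map_mul, hg, hψ]

/-- the main claim: relations are preserved -/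
theorem wdef (hldj : LdjStmt) {f : L →+* L} (hfK : ∀ a ∈ K, f a ∈ K) (hH : H ≤ fixs f)
    (hE : K ⊓ fixs f ≤ H)
    (hc : ∀ (a : L) (hK : a ∈ K) (hH : a ∈ H), θ ⟨a, hK⟩ = ψ ⟨a, hH⟩) :
    ∀ (n : ℕ) (c : Fin n → K) (b : Fin n → H), ∑ i, (c i : L) * (b i : L) = 0 →
      ∑ i, θ (c i) * ψ (b i) = 0 := by
  intro n
  induction n with
  | zero => intro c b _; simp
  | succ n ih =>
    intro c b h
    by_cases hind : ∀ e : Fin (n + 1) → L, (∀ i, e i ∈ K ∧ f (e i) = e i) →
        ∑ i, e i * (b i : L) = 0 → ∀ i, e i = 0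
    · have h1 := hldj L f K hfK (n + 1) (fun i => (b i : L)) (fun i => hH (b i).2) hind
        (fun i => (c i : L)) (fun i => (c i).2) h
      refine Finset.sum_eq_zero fun i _ => ?_
      have h2 : c i = 0 := Subtype.ext (h1 i)
      rw [h2, map_zero, zero_mul]
    · push Not at hind
      obtain ⟨e, he, hsum, j, hj⟩ := hind
      -- the coefficients of `b j`
      have hqK : ∀ i, e i / e j ∈ K := fun i => div_mem (he i).1 (he j).1
      have hqE : ∀ i, e i / e j ∈ K ⊓ fixs f := by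
        intro i
        refine ⟨hqK i, ?_⟩
        show f (e i / e j) = e i / e j
        rw [map_div₀, (he i).2, (he j).2]
      have hqH : ∀ i, e i / e j ∈ H := fun i => hE (hqE i)
      have hbj : (b j : L) = -∑ i : Fin n, e (j.succAbove i) / e j * (b (j.succAbove i) : L) := by
        rw [Fin.sum_univ_succAbove _ j] at hsum
        have h1 : (b j : L) = -(∑ i : Fin n, e (j.succAbove i) * (b (j.succAbove i) : L)) / e j := by
          rw [eq_div_iff hj]
          linear_combination hsum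
        rw [h1, neg_div, Finset.sum_div]
        congr 1
        refine Finset.sum_congr rfl fun i _ => ?_
        ring
      have hbj' : b j = -∑ i : Fin n, (⟨e (j.succAbove i) / e j, hqH _⟩ : H) * b (j.succAbove i) := by
        apply Subtype.ext
        push_cast
        exact hbj
      have hψj : ψ (b j) = -∑ i : Fin n,
          θ ⟨e (j.succAbove i) / e j, hqK _⟩ * ψ (b (j.succAbove i)) := by
        rw [hbj', map_neg, map_sum]
        congr 1
        refine Finset.sum_congr rfl fun i _ => ?_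
        rw [map_mul, hc _ (hqK _) (hqH _)]
      have h2 := ih (fun i => c (j.succAbove i) - c j * ⟨e (j.succAbove i) / e j, hqK _⟩)
        (fun i => b (j.succAbove i)) (by
          rw [Fin.sum_univ_succAbove _ j, hbj] at h
          rw [← h, mul_neg, Finset.mul_sum, neg_add_eq_sub, ← Finset.sum_sub_distrib]
          refine Finset.sum_congr rfl fun i _ => ?_
          push_cast
          ring)
      rw [Fin.sum_univ_succAbove _ j, hψj, mul_neg, Finset.mul_sum, neg_add_eq_sub,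
        ← Finset.sum_sub_distrib, ← h2]
      refine Finset.sum_congr rfl fun i _ => ?_
      rw [map_sub, map_mul]
      ring

theorem rep_zero (hldj : LdjStmt) {f : L →+* L} (hfK : ∀ a ∈ K, f a ∈ K) (hH : H ≤ fixs f)
    (hE : K ⊓ fixs f ≤ H)
    (hc : ∀ (a : L) (hK : a ∈ K) (hH : a ∈ H), θ ⟨a, hK⟩ = ψ ⟨a, hH⟩) {y : L}
    (h : Rep θ ψ 0 y) : y = 0 := by
  obtain ⟨ι, _, c, b, h1, h2⟩ := h
  let e := Fintype.equivFin ι
  have h3 := wdef hldj hfK hH hE hc (Fintype.card ι) (fun i => c (e.symm i)) (fun i => b (e.symm i))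
    (by
      rw [Equiv.sum_comp e.symm (fun i => (c i : L) * (b i : L))]
      exact h1.symm)
  rw [Equiv.sum_comp e.symm (fun i => θ (c i) * ψ (b i))] at h3
  rw [h2, h3]

theorem rep_unique (hldj : LdjStmt) {f : L →+* L} (hfK : ∀ a ∈ K, f a ∈ K) (hH : H ≤ fixs f)
    (hE : K ⊓ fixs f ≤ H)
    (hc : ∀ (a : L) (hK : a ∈ K) (hH : a ∈ H), θ ⟨a, hK⟩ = ψ ⟨a, hH⟩) {a y y' : L}
    (h : Rep θ ψ a y) (h' : Rep θ ψ a y') : y = y' := by
  have h1 := rep_add h (rep_neg h')
  rw [add_neg_cancel] at h1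
  have h2 := rep_zero hldj hfK hH hE hc h1
  exact add_neg_eq_zero.1 h2

end

theorem ext (hldj : LdjStmt) : ExtStmt := by
  intro L _ f K H M θ ψ hKM hHM hH hE hθ hψ hc hM
  have hfK : ∀ a ∈ K, f a ∈ K := by
    intro a ha
    obtain ⟨h, _⟩ := hθ ⟨a, ha⟩
    exact h
  have huniq : ∀ {a y y' : L}, Rep θ ψ a y → Rep θ ψ a y' → y = y' :=
    fun h h' => rep_unique hldj hfK hH hE hc h h'
  have hex : ∀ a : M, ∃ y, Rep θ ψ (a : L) y := by
    intro a
    obtain ⟨n, c, b, h1, h2, h3⟩ := hM a a.2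
    exact ⟨_, Fin n, inferInstance, fun i => ⟨c i, h1 i⟩, fun i => ⟨b i, h2 i⟩, h3, rfl⟩
  choose g hg using hex
  let Θ : M →+* L :=
    { toFun := g
      map_one' := huniq (hg 1) (by
        have h := rep_K (θ := θ) (ψ := ψ) 1
        rw [map_one] at h
        exact h)
      map_mul' := fun a b => huniq (hg (a * b)) (rep_mul (hg a) (hg b))
      map_zero' := huniq (hg 0) (by
        have h := rep_K (θ := θ) (ψ := ψ) 0
        rw [map_zero] at h
        exact h)
      map_add' := fun a b => huniq (hg (a + b)) (rep_add (hg a) (hg b)) }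
  refine ⟨Θ, ?_, ?_, ?_⟩
  · intro a h
    exact huniq (hg ⟨a, h⟩) (rep_K a)
  · intro b h
    exact huniq (hg ⟨b, h⟩) (rep_H b)
  · intro a
    have hfa : f a ∈ M := by
      obtain ⟨n, c, b, h1, h2, h3⟩ := hM a a.2
      rw [h3, map_sum]
      refine sum_mem fun i _ => ?_
      rw [map_mul]
      refine mul_mem (hKM (hfK _ (h1 i))) ?_
      have h4 : f (b i) = b i := hH (h2 i)
      rw [h4]
      exact hHM (h2 i)
    exact ⟨hfa, huniq (hg ⟨f a, hfa⟩) (rep_f hθ hH hψ (hg a))⟩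

end Pool.Agent.FHQ.H52
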