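import Pool.Agent.Helper52_FHQ.TAM
import Pool.Agent.Helper70_FHQ.TM3

/-! Squad FHQ, row TM3 in the form used by TAM: one exceptional set for all angular components with
a given support.  The proof is that of `Helper70_FHQ/TM3.lean`. -/

open scoped BigOperators

noncomputable section

namespace Pool.Agent.FHQ.H52

open Pool.Agent.FHQ.H70

theorem tm3s (per : PerStmt) (psb : PsbStmt) : Tm3sStmt := by
  classical
  rintro r D C ⟨L, hL⟩
  -- the conditions
  obtain ⟨Φ, hΦ⟩ : ∃ Φ : (Finset (Fin r × Fin D) × Fin r × Fin D) ⊕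
      (Fin L.length × (Fin r → Option (Fin D))) → (Fin (r * D + 1) → ℤ) → Prop,
      Φ = Sum.elim (fun c => cA c.1 c.2.1 c.2.2) (fun c x => (L.get c.1).B (vl c.2 x)) := ⟨_, rfl⟩
  have hPD : ∀ c, PD (r * D + 1) (Φ c) := by
    rw [hΦ]
    rintro (c | c)
    · exact pd_cA _ _ _
    · exact pd_vl psb _ _ (L.get c.1).hB
  have hper := fun c => per (r * D) (Φ c) (hPD c)
  choose m N hm hmN using hper
  obtain ⟨mm, hmm⟩ : ∃ mm : ℕ, mm = ∏ c, m c := ⟨_, rfl⟩
  have hmmpos : 0 < mm := by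
    rw [hmm]
    exact Finset.prod_pos fun c _ => hm c
  have hdvd : ∀ c, ∃ q : ℕ, mm = q * m c := by
    intro c
    obtain ⟨q, hq⟩ := Finset.dvd_prod_of_mem m (Finset.mem_univ c)
    exact ⟨q, by rw [hmm, hq]; ring⟩
  choose q hq using hdvd
  refine ⟨mm, ∑ c, q c * N c, hmmpos, ?_⟩
  intro p a0 s
  obtain ⟨x, hx⟩ : ∃ x : Fin (r * D) → ℤ, x = fun j => s (finProdFinEquiv.symm j) := ⟨_, rfl⟩
  have hxs : ∀ (g : ℤ) l k, (Fin.cons g x : Fin (r * D + 1) → ℤ) (finProdFinEquiv (l, k)).succ =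
      s (l, k) := by
    intro g l k
    rw [Fin.cons_succ, hx]
    exact congrArg s (finProdFinEquiv.symm_apply_apply (l, k))
  have hx0 : ∀ (g : ℤ), (Fin.cons g x : Fin (r * D + 1) → ℤ) 0 = g := fun g => Fin.cons_zero _ _
  have hex : ∀ c, (exs (fun g => Φ c (Fin.cons g x)) mm).Finite ∧
      (exs (fun g => Φ c (Fin.cons g x)) mm).ncard ≤ q c * N c := by
    intro c
    rw [hq c]
    exact exs_mul (hmN c x).1 (hmN c x).2 (q c)
  obtain ⟨hU1, hU2⟩ := ncard_iUnion (fun c => exs (fun g => Φ c (Fin.cons g x)) mm)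
    (fun c => (hex c).1)
  have hsub : {g : ℤ | ∃ (a : Fin r × Fin D → ZMod p) (z : ZMod p), (∀ i, a i = 0 ↔ a0 i = 0) ∧
      ¬ (Lead r D C a s z g ↔ Lead r D C a s z (g + mm))} ⊆
      ⋃ c, exs (fun g => Φ c (Fin.cons g x)) mm := by
    rintro g ⟨a, z, _, hz⟩
    by_contra hcon
    apply hz
    have hc : ∀ c, (Φ c (Fin.cons g x) ↔ Φ c (Fin.cons (g + mm) x)) := by
      intro c
      by_contra h1
      exact hcon (Set.mem_iUnion.2 ⟨c, h1⟩)
    -- argument indices
    obtain ⟨Z, hZ⟩ : ∃ Z : Finset (Fin r × Fin D), Z = Finset.univ.filter (fun i => a i ≠ 0) :=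
      ⟨_, rfl⟩
    have memZ : ∀ i, i ∈ Z ↔ a i ≠ 0 := by
      intro i
      rw [hZ, Finset.mem_filter]
      exact ⟨fun h => h.2, fun h => ⟨Finset.mem_univ _, h⟩⟩
    have hAc : ∀ (G : ℤ) l k, Arg (fun k => a (l, k)) (fun k => s (l, k)) G k ↔
        cA Z l k (Fin.cons G x) := by
      intro G l k
      unfold Arg cA
      rw [memZ, hxs, hx0]
      refine and_congr Iff.rfl (forall_congr' fun k' => ?_)
      rw [memZ, hxs]
    have hA : ∀ l k, Arg (fun k => a (l, k)) (fun k => s (l, k)) g k ↔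
        Arg (fun k => a (l, k)) (fun k => s (l, k)) (g + mm) k := by
      intro l k
      rw [hAc, hAc]
      have h1 := hc (Sum.inl (Z, l, k))
      rw [hΦ] at h1
      exact h1
    obtain ⟨κ, hκ⟩ : ∃ κ : Fin r → Option (Fin D), κ = fun l =>
      if h : ∃ k, Arg (fun k => a (l, k)) (fun k => s (l, k)) g k then some h.choose else none :=
      ⟨_, rfl⟩
    have hMu : ∀ G : ℤ, (∀ l k, Arg (fun k => a (l, k)) (fun k => s (l, k)) g k ↔
        Arg (fun k => a (l, k)) (fun k => s (l, k)) G k) →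
        (fun l => Mu (fun k => a (l, k)) (fun k => s (l, k)) G) = vl κ (Fin.cons G x) := by
      intro G hG
      funext l
      unfold vl
      by_cases h : ∃ k, Arg (fun k => a (l, k)) (fun k => s (l, k)) g k
      · have h1 : κ l = some h.choose := by
          rw [hκ]
          exact dif_pos h
        rw [h1]
        show _ = (Fin.cons G x : Fin (r * D + 1) → ℤ) (finProdFinEquiv (l, h.choose)).succ +
          ((h.choose : Fin D) : ℕ) * (Fin.cons G x : Fin (r * D + 1) → ℤ) 0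
        rw [hxs, hx0]
        exact mu_of_arg ((hG l _).1 h.choose_spec)
      · have h1 : κ l = none := by
          rw [hκ]
          exact dif_neg h
        rw [h1]
        refine mu_of_not fun h2 => h ?_
        obtain ⟨k, hk⟩ := h2
        exact ⟨k, (hG l k).2 hk⟩
    unfold Lead
    have hSp : (fun l => Sp (fun k => a (l, k)) (fun k => s (l, k)) g z) =
        fun l => Sp (fun k => a (l, k)) (fun k => s (l, k)) (g + mm) z :=
      funext fun l => sp_congr (hA l) z
    rw [hMu g (fun _ _ => Iff.rfl), hMu (g + mm) hA, ← hSp, hL, hL]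
    have hB : ∀ b ∈ L, (b.B (vl κ (Fin.cons g x)) ↔ b.B (vl κ (Fin.cons (g + mm) x))) := by
      intro b hb
      obtain ⟨i, hi⟩ := List.mem_iff_get.1 hb
      have h1 := hc (Sum.inr (i, κ))
      rw [hΦ] at h1
      have h2 : ((L.get i).B (vl κ (Fin.cons g x)) ↔ (L.get i).B (vl κ (Fin.cons (g + mm) x))) := h1
      rwa [hi] at h2
    constructor
    · rintro ⟨b, hb, h1, h2⟩
      exact ⟨b, hb, h1, (hB b hb).1 h2⟩
    · rintro ⟨b, hb, h1, h2⟩
      exact ⟨b, hb, h1, (hB b hb).2 h2⟩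
  refine ⟨hU1.subset hsub, (Set.ncard_le_ncard hsub hU1).trans (hU2.trans ?_)⟩
  exact Finset.sum_le_sum fun c _ => (hex c).2


theorem tam' (hP : PasStmt) (hT1 : Tm1Stmt) (hT2 : Tm2Stmt) (hper : PerStmt) (hpsb : PsbStmt)
    (hTw : TwiStmt) (hL : LivStmt) : TamStmt :=
  tam hP hT1 hT2 (tm3s hper hpsb) hTw hL

end Pool.Agent.FHQ.H52
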