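import Pool.Agent.FHQ.StmtsU

open scoped BigOperators

noncomputable section

namespace Pool.Agent.FHQ.H52

open Polynomial

section gen

variable {L : Type} [Field L]

theorem mem_acl {S : Subfield L} {a : L} : a ∈ acl S ↔ IsAlgebraic S a := by
  unfold acl
  rw [IntermediateField.mem_toSubfield]
  exact mem_algebraicClosure_iff

theorem le_acl (S : Subfield L) : S ≤ acl S := by
  intro a ha
  rw [mem_acl]
  exact isAlgebraic_algebraMap (⟨a, ha⟩ : S)

theorem acl_closed {S : Subfield L} {a : L} (h : IsAlgebraic (acl S) a) : a ∈ acl S := by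
  have h1 : IsAlgebraic (algebraicClosure S L) a := h
  rw [mem_acl]
  rw [isAlgebraic_iff_isIntegral] at h1 ⊢
  exact isIntegral_trans a h1

theorem acl_countable {S : Subfield L} (h : Countable S) : ((acl S : Subfield L) : Set L).Countable := by
  have h1 := Algebraic.countable S L
  refine h1.mono ?_
  intro a ha
  exact mem_acl.1 ha

theorem closure_countable {s : Set L} (h : s.Countable) : Countable (Subfield.closure s) := by
  rw [← Cardinal.mk_le_aleph0_iff]
  refine (Subfield.cardinalMk_closure_le_max s).trans ?_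
  rw [max_le_iff]
  exact ⟨Cardinal.le_aleph0_iff_set_countable.2 h, le_rfl⟩

theorem mem_fixs {f : L →+* L} {a : L} : a ∈ fixs f ↔ f a = a := Iff.rfl

/-- `f` maps the algebraic closure of `S` to itself -/
theorem map_acl (f : L →+* L) {S : Subfield L} (hS : ∀ a ∈ S, f a ∈ S) {a : L} (ha : a ∈ acl S) :
    f a ∈ acl S := by
  rw [mem_acl] at ha ⊢
  obtain ⟨P, hP, hPa⟩ := ha
  let g : S →+* S := (f.comp S.subtype).codRestrict S (fun x => hS x x.2)
  refine ⟨P.map g, ?_, ?_⟩
  · intro h0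
    apply hP
    exact (Polynomial.map_eq_zero g).1 h0
  · have h1 : aeval (f a) (P.map g) = f (aeval a P) := by
      rw [aeval_def, aeval_def, eval₂_map, hom_eval₂]
      rfl
    rw [h1, hPa, map_zero]

theorem iter_mul {f : L → L} {a : L} {m n : ℕ} (h : f^[m] a = a) : f^[m * n] a = a := by
  rw [Function.iterate_mul]
  exact Function.iterate_fixed h n

theorem iter_mul' {f : L → L} {a : L} {m n : ℕ} (h : f^[n] a = a) : f^[m * n] a = a := by
  rw [mul_comm]
  exact iter_mul h

/-- the periodic elements -/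
def per (f : L →+* L) : Subfield L where
  carrier := {a | ∃ m : ℕ, 0 < m ∧ (⇑f)^[m] a = a}
  mul_mem' := by
    rintro a b ⟨m, hm, ha⟩ ⟨n, hn, hb⟩
    refine ⟨m * n, Nat.mul_pos hm hn, ?_⟩
    rw [← RingHom.coe_pow, map_mul, RingHom.coe_pow, iter_mul ha, iter_mul' hb]
  one_mem' := ⟨1, Nat.one_pos, by simp⟩
  add_mem' := by
    rintro a b ⟨m, hm, ha⟩ ⟨n, hn, hb⟩
    refine ⟨m * n, Nat.mul_pos hm hn, ?_⟩
    rw [← RingHom.coe_pow, map_add, RingHom.coe_pow, iter_mul ha, iter_mul' hb]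
  zero_mem' := ⟨1, Nat.one_pos, by simp⟩
  neg_mem' := by
    rintro a ⟨m, hm, ha⟩
    refine ⟨m, hm, ?_⟩
    rw [← RingHom.coe_pow, map_neg, RingHom.coe_pow, ha]
  inv_mem' := by
    rintro a ⟨m, hm, ha⟩
    refine ⟨m, hm, ?_⟩
    rw [← RingHom.coe_pow, map_inv₀, RingHom.coe_pow, ha]

theorem mem_per {f : L →+* L} {a : L} : a ∈ per f ↔ ∃ m : ℕ, 0 < m ∧ (⇑f)^[m] a = a := Iff.rfl

/-- a finite number of periodic elements have a common period -/
theorem common_period (f : L →+* L) (s : Finset L) (h : ∀ a ∈ s, a ∈ per f) :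
    ∃ m : ℕ, 0 < m ∧ ∀ a ∈ s, (⇑f)^[m] a = a := by
  classical
  induction s using Finset.induction_on with
  | empty => exact ⟨1, Nat.one_pos, by simp⟩
  | insert a s _ ih =>
    obtain ⟨m, hm, h1⟩ := ih (fun b hb => h b (Finset.mem_insert_of_mem hb))
    obtain ⟨n, hn, h2⟩ := h a (Finset.mem_insert_self a s)
    refine ⟨m * n, Nat.mul_pos hm hn, ?_⟩
    intro b hb
    rw [Finset.mem_insert] at hb
    rcases hb with rfl | hb
    · rw [mul_comm, Function.iterate_mul]
      exact Function.iterate_fixed h2 _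
    · rw [Function.iterate_mul]
      exact Function.iterate_fixed (h1 b hb) _

theorem acl_per (f : L →+* L) {S : Subfield L} (hS : S ≤ per f) {a : L} (ha : a ∈ acl S) :
    a ∈ per f := by
  classical
  rw [mem_acl] at ha
  obtain ⟨P, hP, hPa⟩ := ha
  obtain ⟨Q, hQd⟩ : ∃ Q : L[X], Q = P.map (algebraMap S L) := ⟨_, rfl⟩
  have hQ0 : Q ≠ 0 := by
    rw [hQd]
    intro h0
    exact hP ((Polynomial.map_eq_zero _).1 h0)
  have hQa : Q.eval a = 0 := by
    rw [hQd, eval_map, ← aeval_def]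
    exact hPa
  obtain ⟨m, hm, h1⟩ := common_period f (Q.support.image Q.coeff) (by
    intro b hb
    rw [Finset.mem_image] at hb
    obtain ⟨i, _, rfl⟩ := hb
    rw [hQd, coeff_map]
    exact hS (P.coeff i).2)
  have h2 : Q.map (f ^ m) = Q := by
    ext i
    rw [coeff_map]
    by_cases hi : i ∈ Q.support
    · rw [RingHom.coe_pow]
      exact h1 _ (Finset.mem_image_of_mem _ hi)
    · rw [notMem_support_iff.1 hi, map_zero]
  -- the roots are permuted
  have hroot : ∀ k : ℕ, Q.eval ((⇑(f ^ m))^[k] a) = 0 := by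
    intro k
    induction k with
    | zero => exact hQa
    | succ k ih =>
      rw [Function.iterate_succ_apply']
      nth_rewrite 1 [← h2]
      rw [eval_map, eval₂_hom, ih, map_zero]
  have hmem : ∀ k : ℕ, (⇑(f ^ m))^[k] a ∈ Q.roots.toFinset := by
    intro k
    rw [Multiset.mem_toFinset, mem_roots hQ0]
    exact hroot k
  have hninj : ¬ Function.Injective (fun k : ℕ =>
      (⟨(⇑(f ^ m))^[k] a, hmem k⟩ : {x // x ∈ Q.roots.toFinset})) := by
    intro hinj
    exact (Finite.of_injective _ hinj).false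
  rw [Function.Injective] at hninj
  push Not at hninj
  obtain ⟨k, l, hkl, hne⟩ := hninj
  have hkl' : (⇑(f ^ m))^[k] a = (⇑(f ^ m))^[l] a := congrArg Subtype.val hkl
  have hinjf : Function.Injective (⇑(f ^ m)) := (f ^ m).injective
  have key : ∀ k l : ℕ, k < l → (⇑(f ^ m))^[k] a = (⇑(f ^ m))^[l] a → a ∈ per f := by
    intro k l hlt he
    obtain ⟨q, rfl⟩ := Nat.exists_eq_add_of_lt hlt
    rw [add_assoc, Function.iterate_add_apply] at he
    have h3 := (hinjf.iterate k) he
    refine ⟨m * (q + 1), Nat.mul_pos hm (Nat.succ_pos q), ?_⟩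
    rw [Function.iterate_mul]
    rw [RingHom.coe_pow] at h3
    exact h3.symm
  rcases Nat.lt_or_gt_of_ne hne with h3 | h3
  · exact key k l h3 hkl'
  · exact key l k h3 hkl'.symm

/-- the field `M = K(x)^alg` -/
theorem aclx_facts (hdsc : DscStmt) (f : L →+* L) (K : Subfield L)
    (hc : (K : Set L).Countable) (hfK : ∀ a ∈ K, f a ∈ K) (hper : K ≤ per f)
    (hal : ∀ m : ℕ, 0 < m → ∃ α ∈ K, (⇑f)^[m] α = α ∧ ∀ j : ℕ, 0 < j → j < m → (⇑f)^[j] α ≠ α)
    (x : L) (hx : f x = x) :
    ((aclx K x : Subfield L) : Set L).Countable ∧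
    (∀ a : L, IsAlgebraic (aclx K x) a → a ∈ aclx K x) ∧
    (∀ a ∈ aclx K x, f a ∈ aclx K x ∧ ∃ m : ℕ, 0 < m ∧ (⇑f)^[m] a = a) ∧
    K ≤ aclx K x ∧ x ∈ hhx f K x ∧ K ⊓ fixs f ≤ hhx f K x ∧
    ∀ a ∈ aclx K x, ∃ (n : ℕ) (c b : Fin n → L), (∀ i, c i ∈ K) ∧
      (∀ i, b i ∈ hhx f K x) ∧ a = ∑ i, c i * b i := by
  have hS : Subfield.closure (insert x (K : Set L)) ≤ per f := by
    rw [Subfield.closure_le]
    intro a ha
    rcases Set.mem_insert_iff.1 ha with rfl | ha
    · exact ⟨1, Nat.one_pos, hx⟩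
    · exact hper ha
  have hfS : ∀ a ∈ Subfield.closure (insert x (K : Set L)),
      f a ∈ Subfield.closure (insert x (K : Set L)) := by
    have h1 : Subfield.closure (insert x (K : Set L)) ≤
        (Subfield.closure (insert x (K : Set L))).comap f := by
      rw [Subfield.closure_le]
      intro a ha
      rw [SetLike.mem_coe, Subfield.mem_comap]
      apply Subfield.subset_closure
      rcases Set.mem_insert_iff.1 ha with rfl | ha
      · rw [hx]; exact Set.mem_insert _ _
      · exact Set.mem_insert_of_mem _ (hfK a ha)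
    intro a ha
    exact h1 ha
  have hKS : K ≤ Subfield.closure (insert x (K : Set L)) := by
    intro a ha
    exact Subfield.subset_closure (Set.mem_insert_of_mem _ ha)
  have hKM : K ≤ aclx K x := hKS.trans (le_acl _)
  have hfM : ∀ a ∈ aclx K x, f a ∈ aclx K x := fun a ha => map_acl f hfS ha
  have hitM : ∀ (i : ℕ), ∀ a ∈ aclx K x, (⇑f)^[i] a ∈ aclx K x := by
    intro i
    induction i with
    | zero => intro a ha; exact ha
    | succ i ih =>
      intro a ha
      rw [Function.iterate_succ_apply']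
      exact hfM _ (ih a ha)
  have hxM : x ∈ aclx K x := le_acl _ (Subfield.subset_closure (Set.mem_insert _ _))
  refine ⟨acl_countable (closure_countable (hc.insert x)), fun a ha => acl_closed ha,
    fun a ha => ⟨hfM a ha, acl_per f hS ha⟩, hKM, ⟨hxM, hx⟩, fun a ha => ⟨hKM ha.1, ha.2⟩, ?_⟩
  intro a ha
  obtain ⟨m, hm, hma⟩ := acl_per f hS ha
  obtain ⟨α, hαK, hα1, hα2⟩ := hal m hm
  obtain ⟨c, hc1, hc2⟩ := hdsc L f m α a hm hα1 hα2 hma
  refine ⟨m, c, fun j => ∑ i ∈ Finset.range m, (⇑f)^[i] (α ^ (j : ℕ) * a), ?_, ?_, hc2⟩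
  · have h1 : Subfield.closure (Set.range fun i : ℕ => (⇑f)^[i] α) ≤ K := by
      rw [Subfield.closure_le]
      rintro _ ⟨i, rfl⟩
      induction i with
      | zero => exact hαK
      | succ i ih =>
        show (⇑f)^[i + 1] α ∈ (K : Set L)
        rw [Function.iterate_succ_apply']
        exact hfK _ ih
    intro j
    exact h1 (hc1 j)
  · intro j
    obtain ⟨y, hy⟩ : ∃ y, y = α ^ (j : ℕ) * a := ⟨_, rfl⟩
    have hyM : y ∈ aclx K x := by
      rw [hy]
      exact mul_mem (pow_mem (hKM hαK) _) ha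
    have hyf : (⇑f)^[m] y = y := by
      rw [hy, ← RingHom.coe_pow, map_mul, map_pow, RingHom.coe_pow, hα1, hma]
    show (∑ i ∈ Finset.range m, (⇑f)^[i] (α ^ (j : ℕ) * a)) ∈ hhx f K x
    rw [← hy]
    refine ⟨sum_mem fun i _ => hitM i y hyM, ?_⟩
    show f (∑ i ∈ Finset.range m, (⇑f)^[i] y) = ∑ i ∈ Finset.range m, (⇑f)^[i] y
    rw [map_sum]
    have h2 : ∀ i ∈ Finset.range m, f ((⇑f)^[i] y) = (⇑f)^[i + 1] y := by
      intro i _
      rw [Function.iterate_succ_apply']
    rw [Finset.sum_congr rfl h2]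
    have h3 := Finset.sum_range_succ (fun i => (⇑f)^[i] y) m
    have h4 := Finset.sum_range_succ' (fun i => (⇑f)^[i] y) m
    rw [h3] at h4
    rw [hyf] at h4
    exact (add_right_cancel h4).symm

end gen

theorem pix (hdsc : DscStmt) : PixStmt := by
  intro p _ U _ K1 K2 θ hPI x hx
  refine aclx_facts hdsc (Ph p U) K1 hPI.cnt ?_ ?_ hPI.al x hx
  · intro a ha
    obtain ⟨h, _⟩ := hPI.st ⟨a, ha⟩
    exact h
  · intro a ha
    exact hPI.fin a ha

end Pool.Agent.FHQ.H52
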