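import Pool.Agent.FHQ.StmtsT

open scoped BigOperators

noncomputable section

namespace Pool.Agent.FHQ.H52

open Polynomial

theorem aeval_cons {K : Type} [Field K] {n : ℕ} (f : MvPolynomial (Fin (n + 1)) ℤ) (a : K)
    (b : Fin n → K) :
    MvPolynomial.aeval (Fin.cons a b : Fin (n + 1) → K) f =
      ((MvPolynomial.finSuccEquiv ℤ n f).map (spz b)).eval a := by
  have h : ((MvPolynomial.aeval (Fin.cons a b : Fin (n + 1) → K) :
      MvPolynomial (Fin (n + 1)) ℤ →ₐ[ℤ] K) : MvPolynomial (Fin (n + 1)) ℤ →+* K) =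
      (evalRingHom a).comp ((mapRingHom (spz b)).comp
        (RingHomClass.toRingHom (MvPolynomial.finSuccEquiv ℤ n))) := by
    apply MvPolynomial.ringHom_ext
    · intro z
      simp
    · intro i
      refine Fin.cases ?_ (fun j => ?_) i
      · simp [MvPolynomial.finSuccEquiv_X_zero]
      · simp [MvPolynomial.finSuccEquiv_X_succ, spz]
  exact congrArg (fun g : MvPolynomial (Fin (n + 1)) ℤ →+* K => g f) h

/-- the data of the Taylor expansions at `c` -/
def dA {p : ℕ} {K : Type} [Field K] (A : AcF p K) (r D : ℕ) (h : Fin r → K[X]) (c : K) :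
    Fin r × Fin D → ZMod p := fun i => A.ac ((taylor c (h i.1)).coeff i.2)

/-- the data of the Taylor expansions at `c` -/
def dV {p : ℕ} {K : Type} [Field K] (A : AcF p K) (r D : ℕ) (h : Fin r → K[X]) (c : K) :
    Fin r × Fin D → ℤ := fun i => A.v ((taylor c (h i.1)).coeff i.2)

/-- the piece with centre `c` -/
def pcs {p : ℕ} {K : Type} [Field K] (A : AcF p K) (r D : ℕ) (C : Cond r) (h : Fin r → K[X])
    (T : Set K) (R : Set K) (c : K) : Pc p K where
  c := c
  z := c ∈ T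
  X := fun a g => (∀ c' ∈ R, c' ≠ c → ¬ (a = A.ac (c' - c) ∧ g = A.v (c' - c))) ∧
    Lead r D C (dA A r D h c) (dV A r D h c) a g

section one

variable {p : ℕ} [Fact p.Prime] {K : Type} [Field K]

theorem lead_iff (hT1 : Tm1Stmt) (A : AcF p K) {r D : ℕ} (h : Fin r → K[X]) (hD : 2 ≤ D)
    (hDp : D ≤ p) (hdeg : ∀ l, (h l).natDegree < D) (C : Cond r) (T : Set K)
    (hTC : ∀ x, x ∈ T ↔ C p (fun l => A.ac ((h l).eval x)) (fun l => A.v ((h l).eval x)))
    {c : K} (hc : c ∈ Rts (insert X (Set.range h))) (t : K) (ht : t ≠ 0)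
    (hg : ∀ c' ∈ Rts (insert X (Set.range h)), c' ≠ c → A.v (c' - c) ≠ A.v t) :
    c + t ∈ T ↔ Lead r D C (dA A r D h c) (dV A r D h c) (A.ac t) (A.v t) := by
  obtain ⟨_, _, h3⟩ := hT1 p K A r D h hD hDp hdeg C
  have hct : c + t - c = t := by ring
  have hx : c + t ∉ Rts (insert X (Set.range h)) := by
    intro hx
    have h1 : c + t ≠ c := by
      intro h1
      apply ht
      have h2 : t = c + t - c := hct.symm
      rw [h2, h1, sub_self]
    have h2 := hg _ hx h1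
    rw [hct] at h2
    exact h2 rfl
  have h4 := (h3 _ hx).2 c hc (by
    intro c' hc' hne hE
    have h5 := hg c' hc' hne
    rw [hct] at hE
    exact h5 hE.2.2.2)
  rw [hTC, h4, hct]
  exact Iff.rfl

/-- the union of the pieces -/
theorem union_eq (hT1 : Tm1Stmt) (A : AcF p K) {r D : ℕ} (h : Fin r → K[X]) (hD : 2 ≤ D)
    (hDp : D ≤ p) (hdeg : ∀ l, (h l).natDegree < D) (C : Cond r) (T : Set K)
    (hTC : ∀ x, x ∈ T ↔ C p (fun l => A.ac ((h l).eval x)) (fun l => A.v ((h l).eval x))) :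
    T = {x | ∃ c ∈ Rts (insert X (Set.range h)),
      x ∈ (pcs A r D C h T (Rts (insert X (Set.range h))) c).set A} := by
  obtain ⟨_, _, h3⟩ := hT1 p K A r D h hD hDp hdeg C
  ext x
  constructor
  · intro hx
    by_cases hR : x ∈ Rts (insert X (Set.range h))
    · exact ⟨x, hR, Or.inl ⟨rfl, hx⟩⟩
    · obtain ⟨⟨c, hc, hcc⟩, h4⟩ := h3 x hR
      have hxc : x ≠ c := fun he => hR (he ▸ hc)
      refine ⟨c, hc, Or.inr ⟨hxc, ?_, ?_⟩⟩
      · rintro c' hc' hne ⟨e1, e2⟩
        exact hcc c' hc' hne ⟨sub_ne_zero.2 hne, sub_ne_zero.2 hxc, e1.symm, e2.symm⟩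
      · exact (h4 c hc hcc).1 ((hTC x).1 hx)
  · rintro ⟨c, hc, hx⟩
    rcases hx with ⟨h1, h2⟩ | ⟨h1, h2, h5⟩
    · rw [h1]; exact h2
    · have h1' : x ≠ c := h1
      have hR : x ∉ Rts (insert X (Set.range h)) := fun hR => h2 x hR h1' ⟨rfl, rfl⟩
      rw [hTC]
      refine ((h3 x hR).2 c hc ?_).2 h5
      intro c' hc' hne hE
      exact h2 c' hc' hne ⟨hE.2.2.1.symm, hE.2.2.2.symm⟩

theorem dich_pcs (A : AcF p K) {r D : ℕ} (h : Fin r → K[X]) (C : Cond r) (T R : Set K)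
    (hR : R.Finite) {N1 N2 : ℕ} (hN1 : R.ncard ≤ N1)
    (h2 : ∀ (a : Fin r × Fin D → ZMod p) (s : Fin r × Fin D → ℤ) (g : ℤ),
      {z : ZMod p | z ≠ 0 ∧ Lead r D C a s z g}.ncard ≤ N2 ∨
        p ≤ N2 * {z : ZMod p | z ≠ 0 ∧ Lead r D C a s z g}.ncard) (c : K) (g : ℤ) :
    ((pcs A r D C h T R c).rs g).ncard ≤ N1 + 2 * N2 ∨
      p ≤ (N1 + 2 * N2) * ((pcs A r D C h T R c).rs g).ncard := by
  have h3 := h2 (dA A r D h c) (dV A r D h c) g
  have h4 : (pcs A r D C h T R c).rs g ⊆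
      {z : ZMod p | z ≠ 0 ∧ Lead r D C (dA A r D h c) (dV A r D h c) z g} := by
    rintro z ⟨h5, h6⟩
    exact ⟨h5, h6.2⟩
  have h5 : {z : ZMod p | z ≠ 0 ∧ Lead r D C (dA A r D h c) (dV A r D h c) z g} ⊆
      (pcs A r D C h T R c).rs g ∪ (fun c' => A.ac (c' - c)) '' R := by
    rintro z ⟨h5, h6⟩
    by_cases h7 : ∃ c' ∈ R, c' ≠ c ∧ z = A.ac (c' - c) ∧ g = A.v (c' - c)
    · obtain ⟨c', hc', _, h8, _⟩ := h7
      exact Or.inr ⟨c', hc', h8.symm⟩
    · left
      refine ⟨h5, ?_, h6⟩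
      intro c' hc' hne h8
      exact h7 ⟨c', hc', hne, h8⟩
  have h6 := Set.ncard_le_ncard h4 (Set.toFinite _)
  have h7 := Set.ncard_le_ncard h5 (Set.toFinite _)
  have h8 := Set.ncard_union_le ((pcs A r D C h T R c).rs g) ((fun c' => A.ac (c' - c)) '' R)
  have h9 := Set.ncard_image_le (f := fun c' => A.ac (c' - c)) hR
  generalize ((pcs A r D C h T R c).rs g).ncard = q at *
  generalize {z : ZMod p | z ≠ 0 ∧ Lead r D C (dA A r D h c) (dV A r D h c) z g}.ncard = w at *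
  rcases h3 with h3 | h3
  · left; omega
  · by_cases h10 : q ≤ N1
    · left; omega
    · right
      have h11 : w ≤ 2 * q := by omega
      calc p ≤ N2 * w := h3
        _ ≤ N2 * (2 * q) := Nat.mul_le_mul_left _ h11
        _ = (2 * N2) * q := by ring
        _ ≤ (N1 + 2 * N2) * q := Nat.mul_le_mul_right _ (by omega)

theorem exc_pcs (hT1 : Tm1Stmt) (hTw : TwiStmt) (A : AcF p K) {r D : ℕ} (h : Fin r → K[X])
    (hD : 2 ≤ D) (hDp : D ≤ p) (hdeg : ∀ l, (h l).natDegree < D) (C : Cond r) (T : Set K)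
    (hTC : ∀ A' : AcF p K, (∀ x y, A'.E x y ↔ A.E x y) →
      ∀ x, x ∈ T ↔ C p (fun l => A'.ac ((h l).eval x)) (fun l => A'.v ((h l).eval x)))
    {m N3 N1 : ℕ} (h3 : ∀ (a : Fin r × Fin D → ZMod p) (s : Fin r × Fin D → ℤ),
      {g : ℤ | ∃ (a' : Fin r × Fin D → ZMod p) (z : ZMod p), (∀ i, a' i = 0 ↔ a i = 0) ∧
        ¬ (Lead r D C a' s z g ↔ Lead r D C a' s z (g + m))}.Finite ∧
      {g : ℤ | ∃ (a' : Fin r × Fin D → ZMod p) (z : ZMod p), (∀ i, a' i = 0 ↔ a i = 0) ∧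
        ¬ (Lead r D C a' s z g ↔ Lead r D C a' s z (g + m))}.ncard ≤ N3)
    (hR : (Rts (insert X (Set.range h))).Finite) (hN1 : (Rts (insert X (Set.range h))).ncard ≤ N1)
    {c : K} (hc : c ∈ Rts (insert X (Set.range h))) :
    ((pcs A r D C h T (Rts (insert X (Set.range h))) c).exc m).Finite ∧
      ((pcs A r D C h T (Rts (insert X (Set.range h))) c).exc m).ncard ≤ N3 + 2 * N1 := by
  obtain ⟨hf, hn⟩ := h3 (dA A r D h c) (dV A r D h c)
  set E3 := {g : ℤ | ∃ (a' : Fin r × Fin D → ZMod p) (z : ZMod p),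
    (∀ i, a' i = 0 ↔ dA A r D h c i = 0) ∧
        ¬ (Lead r D C a' (dV A r D h c) z g ↔ Lead r D C a' (dV A r D h c) z (g + m))} with hE3
  set R := Rts (insert X (Set.range h)) with hRd
  have hsub : (pcs A r D C h T R c).exc m ⊆
      E3 ∪ ((fun c' => A.v (c' - c)) '' R ∪ (fun c' => A.v (c' - c) - m) '' R) := by
    intro g hg
    by_contra hcon
    rw [Set.mem_union, Set.mem_union, not_or, not_or] at hcon
    obtain ⟨hg3, hg1, hg2⟩ := hcon
    obtain ⟨a, u, ha, hu, hX⟩ := hg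
    apply hX
    -- no centre at the heights `g`, `g + m`
    have hv1 : ∀ c' ∈ R, c' ≠ c → A.v (c' - c) ≠ g := by
      intro c' hc' _ he
      exact hg1 ⟨c', hc', he⟩
    have hv2 : ∀ c' ∈ R, c' ≠ c → A.v (c' - c) ≠ g + m := by
      intro c' hc' _ he
      apply hg2
      refine ⟨c', hc', ?_⟩
      show A.v (c' - c) - m = g
      rw [he]; ring
    obtain ⟨A', hA'v, hA'a, hA'E⟩ := hTw p K A u hu
    -- comparison of the two components
    have key : ∀ (a0 : ZMod p) (g' : ℤ), a0 ≠ 0 → (∀ c' ∈ R, c' ≠ c → A.v (c' - c) ≠ g') →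
        ((pcs A r D C h T R c).X a0 g' ↔
          Lead r D C (dA A' r D h c) (dV A r D h c) (a0 * u ^ (-g')) g') := by
      intro a0 g' ha0 hg'
      obtain ⟨t, ht, hta, htv⟩ := A.surj a0 g' ha0
      have e1 := lead_iff hT1 A h hD hDp hdeg C T (hTC A (fun _ _ => Iff.rfl)) hc t ht
        (by rw [htv]; exact hg')
      have e2 := lead_iff hT1 A' h hD hDp hdeg C T (hTC A' hA'E) hc t ht
        (by
          intro c' hc' hne
          rw [hA'v, hA'v, htv]
          exact hg' c' hc' hne)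
      have e3 : dV A' r D h c = dV A r D h c := by
        funext i
        exact hA'v _
      rw [e3, hA'a, hA'v, hta, htv] at e2
      rw [hta, htv] at e1
      rw [← e2, e1]
      constructor
      · intro h5; exact h5.2
      · intro h5
        refine ⟨?_, h5⟩
        intro c' hc' hne h6
        exact hg' c' hc' hne h6.2.symm
    have hsupp : ∀ i, dA A' r D h c i = 0 ↔ dA A r D h c i = 0 := by
      intro i
      unfold dA
      rw [A'.ac_zero, A.ac_zero]
    have h4 : Lead r D C (dA A' r D h c) (dV A r D h c) (a * u ^ (-g)) g ↔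
        Lead r D C (dA A' r D h c) (dV A r D h c) (a * u ^ (-g)) (g + m) := by
      by_contra hcon
      exact hg3 ⟨_, _, hsupp, hcon⟩
    have h5 : a * u ^ m * u ^ (-(g + m)) = a * u ^ (-g) := by
      rw [mul_assoc, ← zpow_natCast, ← zpow_add₀ hu]
      congr 2
      ring
    rw [key a g ha hv1, h4, key (a * u ^ m) (g + m) (mul_ne_zero ha (pow_ne_zero _ hu)) hv2, h5]
  have hfin : (E3 ∪ ((fun c' => A.v (c' - c)) '' R ∪ (fun c' => A.v (c' - c) - m) '' R)).Finite :=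
    hf.union ((hR.image _).union (hR.image _))
  refine ⟨hfin.subset hsub, ?_⟩
  refine (Set.ncard_le_ncard hsub hfin).trans ?_
  refine (Set.ncard_union_le _ _).trans ?_
  have h6 := Set.ncard_union_le ((fun c' => A.v (c' - c)) '' R) ((fun c' => A.v (c' - c) - m) '' R)
  have h7 := Set.ncard_image_le (f := fun c' => A.v (c' - c)) hR
  have h8 := Set.ncard_image_le (f := fun c' => A.v (c' - c) - (m : ℤ)) hR
  omega

end one

theorem tam (hP : PasStmt) (hT1 : Tm1Stmt) (hT2 : Tm2Stmt) (hT3 : Tm3sStmt) (hTw : TwiStmt)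
    (hL : LivStmt) : TamStmt := by
  intro n S hS
  obtain ⟨p0, r, f, C, hC, hSC⟩ := hP (n + 1) S hS
  obtain ⟨D, hD2, hDd⟩ : ∃ D : ℕ, 2 ≤ D ∧
      ∀ l, (MvPolynomial.finSuccEquiv ℤ n (f l)).natDegree < D := by
    refine ⟨2 + ∑ l, (MvPolynomial.finSuccEquiv ℤ n (f l)).natDegree, by omega, fun l => ?_⟩
    have := Finset.single_le_sum (f := fun l => (MvPolynomial.finSuccEquiv ℤ n (f l)).natDegree)
      (fun _ _ => Nat.zero_le _) (Finset.mem_univ l)
    omega
  obtain ⟨N2, p2, h2⟩ := hT2 r D C hC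
  obtain ⟨m, N3, hm, h3⟩ := hT3 r D C hC
  refine ⟨(r + 1) * D ^ 2 * 3 + 2 * N2 + N3 + 1, m, p0 + p2 + D, hm, ?_⟩
  intro p _ K _ A hp b
  set h : Fin r → K[X] := fun l => (MvPolynomial.finSuccEquiv ℤ n (f l)).map (spz b) with hh
  have hdeg : ∀ l, (h l).natDegree < D := fun l => (natDegree_map_le).trans_lt (hDd l)
  have hTC : ∀ A' : AcF p K, (∀ x y, A'.E x y ↔ A.E x y) →
      ∀ x, x ∈ {x : K | S p K A (Fin.cons x b)} ↔
        C p (fun l => A'.ac ((h l).eval x)) (fun l => A'.v ((h l).eval x)) := by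
    intro A' hE x
    have e1 : x ∈ {x : K | S p K A (Fin.cons x b)} ↔ S p K A' (Fin.cons x b) :=
      (hL (n + 1) S hS p K A A' hE (Fin.cons x b)).symm
    rw [e1, hSC p K A' (by omega) (Fin.cons x b)]
    simp only [aeval_cons, hh]
  have hDp : D ≤ p := by omega
  obtain ⟨hR, hRn, _⟩ := hT1 p K A r D h hD2 hDp hdeg C
  set R := Rts (insert X (Set.range h)) with hRd
  have h0 : (0 : K) ∈ R := by
    refine ⟨X, Set.mem_insert _ _, 0, ?_, ?_⟩
    · exact X_ne_zero
    · simp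
  -- enumeration of the centres
  obtain ⟨e, he1, he2⟩ : ∃ e : Fin ((r + 1) * D ^ 2 * 3 + 2 * N2 + N3 + 1) → K,
      (∀ j, e j ∈ R) ∧ ∀ c ∈ R, ∃ j, e j = c := by
    have : Fintype R := hR.fintype
    have : Nonempty R := ⟨⟨0, h0⟩⟩
    have hcard : Fintype.card R ≤
        Fintype.card (Fin ((r + 1) * D ^ 2 * 3 + 2 * N2 + N3 + 1)) := by
      rw [Fintype.card_fin, ← Nat.card_eq_fintype_card, Nat.card_coe_set_eq]
      omega
    obtain ⟨φ⟩ := Function.Embedding.nonempty_of_card_le hcard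
    refine ⟨fun j => (Function.invFun φ j : R), fun j => (Function.invFun φ j).2, ?_⟩
    intro c hc
    obtain ⟨j, hj⟩ := Function.invFun_surjective φ.injective ⟨c, hc⟩
    exact ⟨j, congrArg Subtype.val hj⟩
  refine ⟨fun j => pcs A r D C h {x : K | S p K A (Fin.cons x b)} R (e j), ?_, ?_⟩
  · intro j
    have hx := exc_pcs hT1 hTw A h hD2 hDp hdeg C {x : K | S p K A (Fin.cons x b)} hTC
      (h3 p) hR hRn (he1 j)
    refine ⟨hx.1, ?_, ?_⟩
    · refine hx.2.trans ?_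
      omega
    · intro g
      rcases dich_pcs A h C {x : K | S p K A (Fin.cons x b)} R hR hRn (h2 p (by omega)) (e j) g
        with h4 | h4
      · left
        refine h4.trans ?_
        omega
      · right
        refine h4.trans (Nat.mul_le_mul_right _ ?_)
        omega
  · refine (union_eq hT1 A h hD2 hDp hdeg C _ (hTC A fun _ _ => Iff.rfl)).trans ?_
    ext x
    rw [Set.mem_iUnion]
    constructor
    · rintro ⟨c, hc, hx⟩
      obtain ⟨j, hj⟩ := he2 c hc
      subst hj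
      exact ⟨j, hx⟩
    · rintro ⟨j, hx⟩
      exact ⟨e j, he1 j, hx⟩

end Pool.Agent.FHQ.H52
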